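import Pool.Agent.Helper31.MHS.Goals

/-!
# Packet MHS-STP (MP_c578c8_lc): one step of the system
-/

namespace Pool.Agent.Helper11.MHS

open Pool.Agent.Helper65.LinSpace Pool.Agent.Helper78.Mpc Pool.Agent.Helper28.Ram Finset
open Pool.Agent.Helper31.MHS

theorem rd_eq (P : WP) (c τ u : ℕ) (M : ℕ → ℕ) (hM : ∀ z, M z < 2 ^ (P.m.S + 2)) :
    P.fl c (u % 2 ^ P.sg) ((P.sys c τ).rd M u) =
      P.m.sys.rd (fun z => P.ef c z (M z)) (u % 2 ^ P.sg) := by
  unfold WP.fl
  refine tab_congr fun i hi => ?_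
  have h : dig (2 ^ (P.m.S + 2)) ((P.sys c τ).rd M u) i = M (P.m.cell (u % 2 ^ P.sg) i) :=
    dig_tab (fun i _ => hM _) hi
  rw [h]
  rfl

theorem ef_succ (P : WP) (c z r : ℕ) : P.ef c z (r + 1) = r := by
  unfold WP.ef
  rw [ifz_ne (Nat.succ_ne_zero r), Nat.add_sub_cancel]

theorem stp : STP_stmt where
  rd := rd_eq
  wr := by
    intro P c τ u M hM h0 z
    have key : ∀ n : ℕ, P.ef c z (nrec (M z) (fun i r => ifz (eq01 ((P.sys c τ).cell u i) z) r
        ((P.sys c τ).W u ((P.sys c τ).rd M u) i)) n) =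
        nrec (P.ef c z (M z)) (fun i r => ifz (eq01 (P.m.sys.cell (u % 2 ^ P.sg) i) z) r
          (P.m.sys.W (u % 2 ^ P.sg) (P.m.sys.rd (fun z => P.ef c z (M z)) (u % 2 ^ P.sg)) i)) n := by
      intro n
      induction n with
      | zero => rfl
      | succ n ih =>
        rw [nrec_succ, nrec_succ, ← ih]
        have e1 : (P.sys c τ).cell u n = P.m.sys.cell (u % 2 ^ P.sg) n := rfl
        have e2 : (P.sys c τ).W u ((P.sys c τ).rd M u) n =
            P.m.sys.W (u % 2 ^ P.sg)
              (P.m.sys.rd (fun z => P.ef c z (M z)) (u % 2 ^ P.sg)) n + 1 := by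
          change P.wW c u ((P.sys c τ).rd M u) n = _
          unfold WP.wW
          rw [h0, ifz_zero, rd_eq P c τ u M hM]
          rfl
        rw [e1, e2]
        by_cases h : P.m.sys.cell (u % 2 ^ P.sg) n = z
        · rw [eq01_of h, ifz_ne one_ne_zero, ifz_ne one_ne_zero, ef_succ]
        · rw [eq01_ne h, ifz_zero, ifz_zero]
    exact key P.m.K
  idle := by
    intro P c τ u M hM h0 z
    have key : ∀ n ≤ P.m.K, nrec (M z) (fun i r => ifz (eq01 ((P.sys c τ).cell u i) z) r
        ((P.sys c τ).W u ((P.sys c τ).rd M u) i)) n = M z := by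
      intro n
      induction n with
      | zero => exact fun _ => rfl
      | succ n ih =>
        intro hn
        rw [nrec_succ, ih (Nat.le_of_succ_le hn)]
        by_cases h : (P.sys c τ).cell u n = z
        · rw [eq01_of h, ifz_ne one_ne_zero]
          change P.wW c u ((P.sys c τ).rd M u) n = _
          unfold WP.wW
          rw [ifz_ne h0]
          have e : dig (2 ^ (P.m.S + 2)) ((P.sys c τ).rd M u) n = M ((P.sys c τ).cell u n) :=
            dig_tab (fun i _ => hM _) hn
          rw [e, h]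
        · rw [eq01_ne h, ifz_zero]
    exact key P.m.K le_rfl

end Pool.Agent.Helper11.MHS
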